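import Pool.Agent.MP_14ad9d_nt.Cases

set_option autoImplicit false

open AlgebraicGeometry CategoryTheory NumberField

namespace Pool.Agent.MP_14ad9d_nt.Old.Cubic

/-- The question has a positive answer for cubic fields whose discriminant is not of the form
`2 m ^ 2` or `-2 m ^ 2`. -/
theorem result (K : Type) [Field K] [NumberField K] (hK : Module.finrank ℚ K = 3)
    (h2 : ¬ IsSquare (2 * discr K)) (h3 : ¬ IsSquare (-2 * discr K)) :
    ∃ (X : Scheme.{0}) (f : X ⟶ Spec (CommRingCat.of ℤ)),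
      LocallyOfFiniteType f ∧ QuasiCompact f ∧
      Infinite (Spec (CommRingCat.of ℤ) ⟶ X) ∧
      Function.Bijective (fun g : Spec (CommRingCat.of ℤ) ⟶ X =>
        Spec.map (CommRingCat.ofHom (algebraMap ℤ (𝓞 K))) ≫ g) := by
  rw [← Rat.isSquare_intCast_iff] at h2 h3
  push_cast at h2 h3
  exact Pool.Agent.MP_14ad9d_nt.conc_cubic K hK h2 h3

end Pool.Agent.MP_14ad9d_nt.Old.Cubic
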