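import Pool.Agent.MP_14ad9d_nt.Cases

set_option autoImplicit false

open AlgebraicGeometry CategoryTheory NumberField

namespace Pool.Agent.MP_14ad9d_nt.Old.CyclicPrime

/-- The question has a positive answer for cyclic fields of odd prime degree `l` when `2` is a
primitive root modulo `l`. -/
theorem result (K : Type) [Field K] [NumberField K] [IsGalois ℚ K] (l : ℕ) (hl : l.Prime)
    (hodd : Odd l) (hK : Module.finrank ℚ K = l) (h2 : orderOf (2 : ZMod l) = l - 1) :
    ∃ (X : Scheme.{0}) (f : X ⟶ Spec (CommRingCat.of ℤ)),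
      LocallyOfFiniteType f ∧ QuasiCompact f ∧
      Infinite (Spec (CommRingCat.of ℤ) ⟶ X) ∧
      Function.Bijective (fun g : Spec (CommRingCat.of ℤ) ⟶ X =>
        Spec.map (CommRingCat.ofHom (algebraMap ℤ (𝓞 K))) ≫ g) := by
  exact Pool.Agent.MP_14ad9d_nt.conc_gal K hl hodd hK h2

end Pool.Agent.MP_14ad9d_nt.Old.CyclicPrime
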