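import Pool.Agent.Mg.F14ad9d.Gbc0ace

set_option autoImplicit false

open AlgebraicGeometry CategoryTheory NumberField

namespace Pool.Agent.MP_14ad9d_nt.Old.Separated

/-- every number field admits a separated scheme of finite type over the integers with infinitely
many integer points and no new points over the ring of integers -/
theorem result :
    ∀ (K : Type) [Field K] [NumberField K],
      ∃ (X : Scheme.{0}) (f : X ⟶ Spec (CommRingCat.of ℤ)),
        LocallyOfFiniteType f ∧ QuasiCompact f ∧ IsSeparated f ∧
        Infinite (Spec (CommRingCat.of ℤ) ⟶ X) ∧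
        Function.Bijective (fun g : Spec (CommRingCat.of ℤ) ⟶ X =>
          Spec.map (CommRingCat.ofHom (algebraMap ℤ (𝓞 K))) ≫ g) :=
  fun K _ _ => Pool.Agent.MP_14ad9d_nt.Full.top K

end Pool.Agent.MP_14ad9d_nt.Old.Separated
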