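import Pool.Agent.MP_14ad9d_nt.Cases

set_option autoImplicit false

open AlgebraicGeometry CategoryTheory NumberField

namespace Pool.Agent.MP_14ad9d_nt.Old.SymmetricOdd

/-- The question has a positive answer for number fields of odd degree `n` whose normal closure has
degree `n!`, provided the quadratic resolvent is not inside the eighth cyclotomic field. -/
theorem result (K L : Type) [Field K] [NumberField K] [Field L] [NumberField L]
    [IsNormalClosure ℚ K L] (hodd : Odd (Module.finrank ℚ K))
    (hL : Module.finrank ℚ L = (Module.finrank ℚ K).factorial)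
    (h1 : ¬ IsSquare (-discr K)) (h2 : ¬ IsSquare (2 * discr K))
    (h3 : ¬ IsSquare (-2 * discr K)) :
    ∃ (X : Scheme.{0}) (f : X ⟶ Spec (CommRingCat.of ℤ)),
      LocallyOfFiniteType f ∧ QuasiCompact f ∧
      Infinite (Spec (CommRingCat.of ℤ) ⟶ X) ∧
      Function.Bijective (fun g : Spec (CommRingCat.of ℤ) ⟶ X =>
        Spec.map (CommRingCat.ofHom (algebraMap ℤ (𝓞 K))) ≫ g) := by
  rw [← Rat.isSquare_intCast_iff] at h1 h2 h3
  push_cast at h1 h2 h3
  exact Pool.Agent.MP_14ad9d_nt.conc_sym K L hodd hL h1 h2 h3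

end Pool.Agent.MP_14ad9d_nt.Old.SymmetricOdd
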